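import Pool.Graph.R_pool_sql_team_seeded_5cf16337.K3h57.Slopes
import Pool.Agent.H545.Cert3b

/-!
# Three slopes: the exponent `122 / 67`
-/

set_option autoImplicit false

namespace Pool.Agent.H545
open Pool.Agent.K3h57 Pool.Agent.K3h57.Tm

theorem ap3 : APk 3 (122 / 67) := by
  refine apk_of_cert 2 (by norm_num) _ (by norm_num) fun B T h0 h => ?_
  have h1 := h 2 1 1 (by norm_num) (by norm_num) (by norm_num)
  have := Cert3b.final B
  rw [← Cert3b.x0, ← Cert3b.x1, ← Cert3b.xL] at this
  linarith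

/-- The weighted form for sets of points: `A ⊆ ℤ × ℤ`. -/
theorem three_slopes (A : Finset (ℤ × ℤ)) (hA : A.Nonempty) :
    Real.log (A.image (fun z => z.1 - z.2)).card ≤
      46 / 67 * (Real.log (sl 1 0 A).card + Real.log (sl 1 1 A).card) +
        30 / 67 * Real.log (sl 2 1 A).card := by
  obtain ⟨B, b1, b2, b3⟩ := slopes_SS A hA
  have := Cert3b.final B
  rw [← Cert3b.x0, ← Cert3b.x1, ← Cert3b.xL, b1] at this
  have h1 := b3 2 1
  norm_num at h1
  linarith

end Pool.Agent.H545
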